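import Pool.Agent.Helper15.SB.Bal
import Pool.Agent.Helper4.CB.Defs

/-!
# Symbols of prime degree: representatives modulo `l`-th powers
-/

set_option autoImplicit false

namespace Pool.Agent.Helper15.SB

open NumberField Module UniqueFactorizationMonoid
open Pool.Agent.Helper16.CB Pool.Agent.Helper35.CB Pool.Agent.Helper4.CB

/-- the exponent of the prime `p` in the nonzero integer `x` -/
noncomputable def vp {K : Type} [Field K] [NumberField K] (p : Pl K) (x : 𝓞 K) : ℕ :=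
  haveI := Classical.decEq (Ideal (𝓞 K))
  Multiset.count p.asIdeal (normalizedFactors (Ideal.span {x}))

/-- class representatives: every nonzero ideal becomes principal after multiplication with one of
finitely many nonzero ideals -/
theorem exists_class_reps (K : Type) [Field K] [NumberField K] :
    ∃ CC : Finset (Ideal (𝓞 K)), ⊥ ∉ CC ∧ ∀ I : Ideal (𝓞 K), I ≠ ⊥ → ∃ c ∈ CC, ∃ g : 𝓞 K,
      g ≠ 0 ∧ Ideal.span {g} = I * c := by
  classical
  choose f hf using ClassGroup.mk0_surjective (R := 𝓞 K)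
  refine ⟨Finset.univ.image fun C : ClassGroup (𝓞 K) => (f C : Ideal (𝓞 K)), ?_, ?_⟩
  · intro h
    rw [Finset.mem_image] at h
    obtain ⟨C, _, hC⟩ := h
    exact nonZeroDivisors.ne_zero (f C).2 hC
  · intro I hI
    set I' : nonZeroDivisors (Ideal (𝓞 K)) := ⟨I, mem_nonZeroDivisors_of_ne_zero hI⟩ with hI'
    refine ⟨f (ClassGroup.mk0 I')⁻¹, Finset.mem_image_of_mem _ (Finset.mem_univ _), ?_⟩
    have h1 : ClassGroup.mk0 (I' * f (ClassGroup.mk0 I')⁻¹) = 1 := by
      rw [map_mul, hf, mul_inv_cancel]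
    rw [ClassGroup.mk0_eq_one_iff] at h1
    obtain ⟨g, hg⟩ := h1
    have hg' : I * (f (ClassGroup.mk0 I')⁻¹ : Ideal (𝓞 K)) = Ideal.span {g} := hg
    refine ⟨g, ?_, hg'.symm⟩
    rintro rfl
    have h2 : I * (f (ClassGroup.mk0 I')⁻¹ : Ideal (𝓞 K)) = ⊥ := by rw [hg']; simp
    rw [Ideal.mul_eq_bot] at h2
    rcases h2 with h2 | h2
    · exact hI h2
    · exact nonZeroDivisors.ne_zero (f (ClassGroup.mk0 I')⁻¹).2 h2

/-- the count does not depend on the decision procedure -/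
theorem count_dec {α : Type*} (i1 i2 : DecidableEq α) (a : α) (s : Multiset α) :
    @Multiset.count α i1 a s = @Multiset.count α i2 a s := by
  rw [Subsingleton.elim i1 i2]

/-- decomposition of an ideal in an `l`-th power and a bounded part -/
theorem exists_pow_mul (K : Type) [Field K] [NumberField K] (l : ℕ) (hl : 0 < l)
    (S : Finset (Pl K)) : ∃ M : ℕ, ∀ x : 𝓞 K, x ≠ 0 → (∀ p : Pl K, p ∉ S → l ∣ vp p x) →
      ∃ b s : Ideal (𝓞 K), b ≠ ⊥ ∧ s ≠ ⊥ ∧ Ideal.span {x} = b ^ l * s ∧ Ideal.absNorm s ≤ M := by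
  classical
  refine ⟨∏ p ∈ S, Ideal.absNorm p.asIdeal ^ l, ?_⟩
  intro x hx hS
  have hI : Ideal.span {x} ≠ ⊥ := by simpa using hx
  set m := normalizedFactors (Ideal.span {x}) with hm
  have hprod : ∏ p ∈ m.toFinset, p ^ m.count p = Ideal.span {x} := by
    rw [← Finset.prod_multiset_count]
    exact Ideal.prod_normalizedFactors_eq_self hI
  have hpr : ∀ p ∈ m.toFinset, Prime p := fun p hp =>
    prime_of_normalized_factor p (Multiset.mem_toFinset.1 hp)
  have hpn : ∀ p ∈ m.toFinset, p ≠ ⊥ := fun p hp => (hpr p hp).ne_zero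
  set b : Ideal (𝓞 K) := ∏ p ∈ m.toFinset, p ^ (m.count p / l) with hb
  set s : Ideal (𝓞 K) := ∏ p ∈ m.toFinset, p ^ (m.count p % l) with hs
  have hbs : b ^ l * s = Ideal.span {x} := by
    rw [← hprod, hb, hs, ← Finset.prod_pow, ← Finset.prod_mul_distrib]
    apply Finset.prod_congr rfl
    intro p _
    rw [← pow_mul, ← pow_add]
    congr 1
    rw [mul_comm]
    exact Nat.div_add_mod _ _
  have hb0 : b ≠ ⊥ := by
    rw [hb]
    exact Finset.prod_ne_zero_iff.2 fun p hp => pow_ne_zero _ (hpn p hp)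
  have hs0 : s ≠ ⊥ := by
    rw [hs]
    exact Finset.prod_ne_zero_iff.2 fun p hp => pow_ne_zero _ (hpn p hp)
  refine ⟨b, s, hb0, hs0, hbs.symm, ?_⟩
  -- the primes outside `S` do not contribute
  set T : Finset (Ideal (𝓞 K)) := S.image fun p => p.asIdeal with hT
  have h1 : ∀ p ∈ m.toFinset, p ∉ T → p ^ (m.count p % l) = 1 := by
    intro p hp hpT
    have hpi : p.IsPrime := Ideal.isPrime_of_prime (hpr p hp)
    set P : Pl K := ⟨p, hpi, hpn p hp⟩ with hP
    have h2 : P ∉ S := fun h => hpT (Finset.mem_image.2 ⟨P, h, rfl⟩)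
    have h3 := hS P h2
    have h4 : vp P x = m.count p := by
      unfold vp
      exact count_dec _ _ _ _
    rw [h4] at h3
    rw [Nat.mod_eq_zero_of_dvd h3, pow_zero]
  have h2 : s = ∏ p ∈ m.toFinset.filter (· ∈ T), p ^ (m.count p % l) := by
    rw [hs, Finset.prod_filter]
    apply Finset.prod_congr rfl
    intro p hp
    by_cases h : p ∈ T
    · rw [if_pos h]
    · rw [if_neg h, h1 p hp h]
  have hTn : ∀ p ∈ T, 1 ≤ Ideal.absNorm p := by
    intro p hp
    obtain ⟨P, _, rfl⟩ := Finset.mem_image.1 hp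
    have := two_le_nm P
    unfold nm at this
    omega
  rw [h2, map_prod]
  calc ∏ p ∈ m.toFinset.filter (· ∈ T), Ideal.absNorm (p ^ (m.count p % l))
      ≤ ∏ p ∈ m.toFinset.filter (· ∈ T), Ideal.absNorm p ^ l := by
        apply Finset.prod_le_prod'
        intro p hp
        rw [map_pow]
        exact Nat.pow_le_pow_right (hTn p (Finset.mem_filter.1 hp).2) (Nat.mod_lt _ hl).le
    _ ≤ ∏ p ∈ T, Ideal.absNorm p ^ l := by
        apply Finset.prod_le_prod_of_subset_of_one_le'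
        · intro p hp
          exact (Finset.mem_filter.1 hp).2
        · intro p hp _
          exact Nat.one_le_pow _ _ (hTn p hp)
    _ = ∏ p ∈ S, Ideal.absNorm p.asIdeal ^ l := by
        rw [hT, Finset.prod_image]
        intro p _ q _ h
        exact IsDedekindDomain.HeightOneSpectrum.ext h

/-- **FIN.**  The integers all of whose exponents outside `S` are divisible by `l` fall in finitely
many classes modulo `l`-th powers. -/
theorem exists_reps (K : Type) [Field K] [NumberField K] (l : ℕ) (hl : 0 < l)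
    (S : Finset (Pl K)) : ∃ W : Finset (𝓞 K), (0 : 𝓞 K) ∉ W ∧ ∀ x : 𝓞 K, x ≠ 0 →
      (∀ p : Pl K, p ∉ S → l ∣ vp p x) →
      ∃ w ∈ W, ∃ y z : 𝓞 K, y ≠ 0 ∧ z ≠ 0 ∧ x * y ^ l = w * z ^ l := by
  classical
  obtain ⟨CC, hCC0, hCC⟩ := exists_class_reps K
  obtain ⟨M, hM⟩ := exists_pow_mul K l hl S
  obtain ⟨c, C, hc, hbal⟩ := exists_bal_pow K l hl
  -- a bound for the norms of the representatives
  obtain ⟨M2, hM2⟩ : ∃ M2 : ℕ, ∀ I ∈ CC, Ideal.absNorm I ≤ M2 :=
    ⟨∑ I ∈ CC, Ideal.absNorm I, fun I hI =>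
      Finset.single_le_sum (f := fun I : Ideal (𝓞 K) => Ideal.absNorm I) (fun _ _ => Nat.zero_le _) hI⟩
  set M3 : ℝ := (M : ℝ) * (M2 : ℝ) ^ l * |C| ^ l with hM3
  set R : ℝ := c * M3 ^ (1 / (finrank ℚ K : ℝ)) with hR
  have hfin : {w : 𝓞 K | ∀ σ : K →+* ℂ, ‖σ (w : K)‖ ≤ R}.Finite := by
    have h := NumberField.Embeddings.finite_of_norm_le K ℂ R
    refine Set.Finite.of_finite_image (f := fun w : 𝓞 K => (w : K)) (h.subset ?_) ?_
    · rintro _ ⟨w, hw, rfl⟩
      exact ⟨RingOfIntegers.isIntegral_coe w, hw⟩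
    · intro v _ w _ h
      exact RingOfIntegers.ext h
  refine ⟨hfin.toFinset.erase 0, by simp, ?_⟩
  intro x hx hS
  obtain ⟨b, s, hb0, hs0, hxbs, hsM⟩ := hM x hx hS
  obtain ⟨c1, hc1, β, hβ0, hβ⟩ := hCC b hb0
  have hc10 : c1 ≠ ⊥ := fun h => hCC0 (h ▸ hc1)
  obtain ⟨c2, hc2, γ, hγ0, hγ⟩ := hCC c1 hc10
  have hc20 : c2 ≠ ⊥ := fun h => hCC0 (h ▸ hc2)
  -- the ideal identity
  have h1 : Ideal.span {x * γ ^ l} = Ideal.span {β ^ l} * (s * c2 ^ l) := by
    rw [← Ideal.span_singleton_mul_span_singleton, ← Ideal.span_singleton_pow,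
      ← Ideal.span_singleton_pow, hxbs, hβ, hγ]
    ring
  have h2 : β ^ l ∣ x * γ ^ l := by
    have h4 : Ideal.span {x * γ ^ l} ≤ Ideal.span {β ^ l} := by
      rw [h1]
      exact Ideal.mul_le_left
    exact (Ideal.span_singleton_le_span_singleton (α := 𝓞 K)).1 h4
  obtain ⟨w0, hw0⟩ := h2
  have hβl : β ^ l ≠ 0 := pow_ne_zero _ hβ0
  have hw00 : w0 ≠ 0 := by
    rintro rfl
    rw [mul_zero] at hw0
    exact mul_ne_zero hx (pow_ne_zero _ hγ0) hw0
  have h3 : Ideal.span {w0} = s * c2 ^ l := by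
    rw [hw0, ← Ideal.span_singleton_mul_span_singleton] at h1
    have h4 : Ideal.span {β ^ l} ≠ ⊥ := by simpa using hβl
    exact mul_left_cancel₀ h4 h1
  obtain ⟨η, hη0, hηC, hηb⟩ := hbal w0 hw00
  set w := w0 * η ^ l with hw
  have hw' : w ≠ 0 := mul_ne_zero hw00 (pow_ne_zero _ hη0)
  have hnorm : (Ideal.absNorm (Ideal.span {w}) : ℝ) ≤ M3 := by
    have h4 : Ideal.absNorm (Ideal.span {w}) = Ideal.absNorm s * Ideal.absNorm c2 ^ l *
        Ideal.absNorm (Ideal.span {η}) ^ l := by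
      rw [hw, ← Ideal.span_singleton_mul_span_singleton, h3, ← Ideal.span_singleton_pow]
      simp only [map_mul, map_pow]
    have h5 : (Ideal.absNorm (Ideal.span {η}) : ℝ) ≤ |C| := by
      rw [Ideal.absNorm_span_singleton, Nat.cast_natAbs, Int.cast_abs]
      exact hηC.trans (le_abs_self C)
    rw [h4, hM3]
    push_cast
    have h6 : (Ideal.absNorm s : ℝ) ≤ M := by exact_mod_cast hsM
    have h7 : (Ideal.absNorm c2 : ℝ) ≤ M2 := by exact_mod_cast hM2 c2 hc2
    gcongr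
  refine ⟨w, ?_, γ * η, β, mul_ne_zero hγ0 hη0, hβ0, ?_⟩
  · rw [Finset.mem_erase, Set.Finite.mem_toFinset]
    refine ⟨hw', fun σ => (hηb σ).1.trans ?_⟩
    rw [hR]
    have h8 : (Ideal.absNorm (Ideal.span {w}) : ℝ) ^ (1 / (finrank ℚ K : ℝ)) ≤
        M3 ^ (1 / (finrank ℚ K : ℝ)) := Real.rpow_le_rpow (by positivity) hnorm (by positivity)
    exact mul_le_mul_of_nonneg_left h8 hc.le
  · rw [mul_pow, ← mul_assoc, hw0, hw]
    ring

end Pool.Agent.Helper15.SB
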