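import Pool.Agent.Helper15.SB.Fin

/-!
# Symbols of prime degree: exponents of primes
-/

set_option autoImplicit false

namespace Pool.Agent.Helper15.SB

open NumberField Module UniqueFactorizationMonoid
open Pool.Agent.Helper4.CB

variable {K : Type} [Field K] [NumberField K]

/-- the exponent of the prime `p` in the ideal `I` -/
noncomputable def vI (p : Pl K) (I : Ideal (𝓞 K)) : ℕ :=
  haveI := Classical.decEq (Ideal (𝓞 K))
  Multiset.count p.asIdeal (normalizedFactors I)

theorem vp_def (p : Pl K) (x : 𝓞 K) : vp p x = vI p (Ideal.span {x}) := rfl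

theorem le_vI_iff (p : Pl K) {I : Ideal (𝓞 K)} (hI : I ≠ ⊥) (n : ℕ) :
    n ≤ vI p I ↔ I ≤ p.asIdeal ^ n := by
  classical
  have hp : Irreducible p.asIdeal := p.irreducible
  unfold vI
  rw [← Ideal.dvd_iff_le, dvd_iff_normalizedFactors_le_normalizedFactors
    (pow_ne_zero _ hp.ne_zero) hI, normalizedFactors_pow, normalizedFactors_irreducible hp,
    normalize_eq, Multiset.nsmul_singleton, ← Multiset.le_count_iff_replicate_le]
  exact Iff.of_eq (congrArg (fun k => n ≤ k) (count_dec _ _ _ _))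

theorem vI_mul (p : Pl K) {I J : Ideal (𝓞 K)} (hI : I ≠ ⊥) (hJ : J ≠ ⊥) :
    vI p (I * J) = vI p I + vI p J := by
  classical
  unfold vI
  rw [normalizedFactors_mul hI hJ, Multiset.count_add]

theorem vI_one (p : Pl K) : vI p (1 : Ideal (𝓞 K)) = 0 := by
  classical
  unfold vI
  rw [normalizedFactors_one, Multiset.count_zero]

theorem vI_pow (p : Pl K) {I : Ideal (𝓞 K)} (hI : I ≠ ⊥) (n : ℕ) : vI p (I ^ n) = n * vI p I := by
  induction n with
  | zero => rw [pow_zero, vI_one, zero_mul]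
  | succ n ih =>
    rw [pow_succ, vI_mul p (pow_ne_zero _ hI) hI, ih]
    ring

theorem vI_prod {ι : Type*} (p : Pl K) (s : Finset ι) (f : ι → Ideal (𝓞 K))
    (hf : ∀ i ∈ s, f i ≠ ⊥) : vI p (∏ i ∈ s, f i) = ∑ i ∈ s, vI p (f i) := by
  classical
  induction s using Finset.induction_on with
  | empty => rw [Finset.prod_empty, Finset.sum_empty, vI_one]
  | insert a s ha ih =>
    rw [Finset.prod_insert ha, Finset.sum_insert ha, vI_mul p (hf a (Finset.mem_insert_self _ _)) ?_,
      ih fun i hi => hf i (Finset.mem_insert_of_mem hi)]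
    exact Finset.prod_ne_zero_iff.2 fun i hi => hf i (Finset.mem_insert_of_mem hi)

theorem vI_self (p : Pl K) : vI p p.asIdeal = 1 := by
  classical
  unfold vI
  rw [normalizedFactors_irreducible p.irreducible, normalize_eq, Multiset.count_singleton_self]

theorem vI_of_ne (p q : Pl K) (h : p ≠ q) : vI p q.asIdeal = 0 := by
  classical
  unfold vI
  rw [normalizedFactors_irreducible q.irreducible, normalize_eq, Multiset.count_eq_zero,
    Multiset.mem_singleton]
  exact fun h' => h (IsDedekindDomain.HeightOneSpectrum.ext h')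

theorem vI_eq_zero_iff (p : Pl K) {I : Ideal (𝓞 K)} (hI : I ≠ ⊥) :
    vI p I = 0 ↔ ¬ I ≤ p.asIdeal := by
  have h := le_vI_iff p hI 1
  rw [pow_one] at h
  rw [← h]
  omega

theorem vp_eq_zero_iff (p : Pl K) {x : 𝓞 K} (hx : x ≠ 0) : vp p x = 0 ↔ x ∉ p.asIdeal := by
  rw [vp_def, vI_eq_zero_iff p (by simpa using hx), Ideal.span_singleton_le_iff_mem]

theorem vp_mul (p : Pl K) {x y : 𝓞 K} (hx : x ≠ 0) (hy : y ≠ 0) :
    vp p (x * y) = vp p x + vp p y := by
  rw [vp_def, vp_def, vp_def, ← Ideal.span_singleton_mul_span_singleton,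
    vI_mul p (by simpa using hx) (by simpa using hy)]

theorem vp_one (p : Pl K) : vp p (1 : 𝓞 K) = 0 := by
  rw [vp_eq_zero_iff p one_ne_zero, ← Ideal.ne_top_iff_one]
  exact p.isPrime.ne_top

theorem vp_pow (p : Pl K) {x : 𝓞 K} (hx : x ≠ 0) (n : ℕ) : vp p (x ^ n) = n * vp p x := by
  rw [vp_def, vp_def, ← Ideal.span_singleton_pow, vI_pow p (by simpa using hx)]

theorem vp_prod {ι : Type*} (p : Pl K) (s : Finset ι) (f : ι → 𝓞 K)
    (hf : ∀ i ∈ s, f i ≠ 0) : vp p (∏ i ∈ s, f i) = ∑ i ∈ s, vp p (f i) := by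
  classical
  induction s using Finset.induction_on with
  | empty => rw [Finset.prod_empty, Finset.sum_empty, vp_one]
  | insert a s ha ih =>
    rw [Finset.prod_insert ha, Finset.sum_insert ha, vp_mul p (hf a (Finset.mem_insert_self _ _)) ?_,
      ih fun i hi => hf i (Finset.mem_insert_of_mem hi)]
    exact Finset.prod_ne_zero_iff.2 fun i hi => hf i (Finset.mem_insert_of_mem hi)

theorem le_vp_iff (p : Pl K) {x : 𝓞 K} (hx : x ≠ 0) (n : ℕ) :
    n ≤ vp p x ↔ p.valuation K (x : K) ≤ WithZero.exp (-(n : ℤ)) := by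
  rw [vp_def, le_vI_iff p (by simpa using hx), ← Ideal.dvd_iff_le,
    ← IsDedekindDomain.HeightOneSpectrum.intValuation_le_pow_iff_dvd,
    ← IsDedekindDomain.HeightOneSpectrum.valuation_of_algebraMap (K := K)]

theorem vp_eq_of_valuation (p : Pl K) {x y : 𝓞 K} (hx : x ≠ 0) (hy : y ≠ 0)
    (h : p.valuation K (x : K) = p.valuation K (y : K)) : vp p x = vp p y := by
  apply le_antisymm
  · rw [le_vp_iff p hy, ← h, ← le_vp_iff p hx]
  · rw [le_vp_iff p hx, h, ← le_vp_iff p hy]

end Pool.Agent.Helper15.SB
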